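import Pool.Agent.H.MP_ba1a3e_pr.B

/-! Dimension-free comparison of KL and chi-squared with Hellinger for Gaussian mixtures. -/

namespace Pool.Agent.Results.MP_ba1a3e_pr.Holds

open MeasureTheory Filter

/-- The density of the Gaussian mixture with mixing distribution `p` on `ℝ^d`. -/
noncomputable def f {d : ℕ} (p : Measure (EuclideanSpace ℝ (Fin d)))
    (x : EuclideanSpace ℝ (Fin d)) : ℝ :=
  ∫ z, (2 * Real.pi) ^ (-(d : ℝ) / 2) * Real.exp (-‖x - z‖ ^ 2 / 2) ∂p

open Pool.Agent.H.MP_ba1a3e_pr ProbabilityTheory in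
theorem result (M : ℝ) : ∃ C : ℝ, ∀ (d : ℕ) (p q : Measure (EuclideanSpace ℝ (Fin d)))
    [IsProbabilityMeasure p] [IsProbabilityMeasure q],
    p (Metric.closedBall 0 M)ᶜ = 0 → q (Metric.closedBall 0 M)ᶜ = 0 →
    Integrable (fun x => f p x * Real.log (f p x / f q x)) ∧
    Integrable (fun x => (f p x - f q x) ^ 2 / f q x) ∧
    ∫ x, f p x * Real.log (f p x / f q x) ≤ C * ∫ x, (√(f p x) - √(f q x)) ^ 2 ∧
    ∫ x, (f p x - f q x) ^ 2 / f q x ≤ C * ∫ x, (√(f p x) - √(f q x)) ^ 2 := by
  obtain ⟨C, -, h⟩ := chi M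
  refine ⟨C, fun d p q _ _ hp hq => ?_⟩
  have hp : ∀ᵐ z ∂p, ‖z‖ ≤ M := by
    filter_upwards [mem_ae_iff.2 hp] with z hz using by simpa using hz
  have hq : ∀ᵐ z ∂q, ‖z‖ ≤ M := by
    filter_upwards [mem_ae_iff.2 hq] with z hz using by simpa using hz
  obtain ⟨h1, h2⟩ := h _ p q hp hq
  have e : ∀ (p : Measure (EuclideanSpace ℝ (Fin d))) x, f p x = phi x * L p x := by
    intro p x
    rw [f, L, ← integral_const_mul]
    refine integral_congr_ae (Eventually.of_forall fun z => ?_)
    simp only [phi, ee, finrank_euclideanSpace, Fintype.card_fin]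
    rw [mul_assoc, ← Real.exp_add, norm_sub_sq_real, real_inner_comm x z]
    congr 2
    ring
  have h0 : ∀ x : EuclideanSpace ℝ (Fin d), 0 < phi x := fun x => by unfold phi; positivity
  have e1 : ∀ x, f p x * Real.log (f p x / f q x) =
      phi x * (L p x * Real.log (L p x / L q x)) := fun x => by
    rw [e, e, mul_div_mul_left _ _ (h0 x).ne', mul_assoc]
  have e2 : ∀ x, (f p x - f q x) ^ 2 / f q x = phi x * ((L p x - L q x) ^ 2 / L q x) := fun x => by
    have := h0 x
    have := L_pos hq x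
    rw [e, e]; field_simp
  have e3 : ∀ x, (√(f p x) - √(f q x)) ^ 2 = phi x * (√(L p x) - √(L q x)) ^ 2 := fun x => by
    rw [e, e, Real.sqrt_mul (h0 x).le, Real.sqrt_mul (h0 x).le, ← mul_sub, mul_pow,
      Real.sq_sqrt (h0 x).le]
  simp only [e1, e2, e3, ← (transfer _).1, ← (transfer _).2]
  have i1 := ((h1.add (L_int hp).1).sub (L_int hq).1)
  have b1 : ∀ x, L p x * Real.log (L p x / L q x) ≤
      (L p x - L q x) ^ 2 / L q x + L p x - L q x := fun x => by
    have ha := L_pos hp x
    have hb := L_pos hq x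
    refine (mul_le_mul_of_nonneg_left (Real.log_le_sub_one_of_pos (div_pos ha hb)) ha.le).trans_eq ?_
    field_simp; ring
  have b2 : ∀ x, L p x - L q x ≤ L p x * Real.log (L p x / L q x) := fun x => by
    have ha := L_pos hp x
    have hb := L_pos hq x
    refine le_of_eq_of_le ?_
      (mul_le_mul_of_nonneg_left (Real.one_sub_inv_le_log_of_pos (div_pos ha hb)) ha.le)
    field_simp
  have i2 : Integrable (fun x => L p x * Real.log (L p x / L q x))
      (stdGaussian (EuclideanSpace ℝ (Fin d))) :=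
    integrable_of_le_of_le ((L_meas p).mul ((L_meas p).div (L_meas q)).log).aestronglyMeasurable
      (Eventually.of_forall b2) (Eventually.of_forall b1) ((L_int hp).1.sub (L_int hq).1) i1
  refine ⟨i2, h1, le_trans ?_ h2, h2⟩
  refine (integral_mono i2 i1 b1).trans_eq ?_
  rw [integral_sub' (h1.add (L_int hp).1) (L_int hq).1, integral_add' h1 (L_int hp).1,
    (L_int hp).2, (L_int hq).2, add_sub_cancel_right]

end Pool.Agent.Results.MP_ba1a3e_pr.Holds
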